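import Mathlib
import Pool.Agent.Helper126.Sus.Forc
import Pool.Agent.Helper126.Sus.Book

/-!
# A Suslin tree can force tree uniformization

There is a forcing notion `P` with the countable chain condition which adds a Suslin tree `S` such
that forcing with `S` over the extension gives a model in which, for some ladder system `C` and
some Aronszajn tree `T`, every colouring of `C` with natural numbers has a `T`-uniformization. In
particular every 2-colouring of `C` has a `T`-uniformization there.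
-/

namespace Pool.Agent.Results.MP_0201f6_lc.SuslinUnif

open Cardinal Pool.Agent.Helper126.Sus.Forc

open Pool.Agent.Helper126.Sus.Poset Pool.Agent.Helper126.Sus.Names
  Pool.Agent.Helper126.Sus.Uni Pool.Agent.Helper126.Sus.Tree in
theorem result :
    ∃ (P : Type) (_ : Preorder P) (S : SuslinTree P) (C : K1 → Set K1) (T : Type)
      (lt : T → T → Set (Iter S)) (ht : T → K1),
      Nonempty (Iter S) ∧ CCC P ∧ CCC (Iter S) ∧ IsLadder C ∧
        ∀ r : Iter S, r ∈ IsAronszajn lt ht ∧ r ∈ Unif C lt ht ∧ r ∈ UnifTwo C lt ht ∧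
          r ∈ UnifcTwo C lt ht := by
  obtain ⟨C, hC⟩ := Pool.Agent.Helper126.Sus.Om.exists_lad
  have h0 : ℵ₀ ≤ ℵ_ 1 := aleph0_le_aleph 1
  have hreg : (Order.succ (ℵ_ 1 : Cardinal.{0})).IsRegular := isRegular_succ h0
  let J : Type := (Order.succ (ℵ_ 1 : Cardinal.{0})).ord.ToType
  have hJ : #J = Order.succ (ℵ_ 1) := by
    show #((Order.succ (ℵ_ 1 : Cardinal.{0})).ord.ToType) = _
    rw [mk_toType, card_ord]
  have hcof : ∀ S : Set J, #S ≤ ℵ_ 1 → ∃ b, ∀ s ∈ S, s < b := by
    intro S hS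
    by_contra hcon
    push Not at hcon
    have h1 : IsCofinal S := fun b => by
      obtain ⟨s, hs, hb⟩ := hcon b
      exact ⟨s, hs, hb⟩
    have h2 := Order.cof_le h1
    rw [Ordinal.cof_toType, hreg.cof_ord] at h2
    exact absurd (h2.trans hS) (not_le.2 (Order.lt_succ _))
  have hNM : NoMaxOrder J := ⟨fun a => by
    obtain ⟨b, hb⟩ := hcof {a} (by
      rw [mk_singleton]
      exact one_le_aleph0.trans h0)
    exact ⟨b, hb a rfl⟩⟩
  have hNE : Nonempty J := by
    rw [← mk_ne_zero_iff, hJ]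
    exact (lt_of_le_of_lt bot_le (Order.lt_succ _)).ne'
  obtain ⟨g, hg⟩ := Pool.Agent.Helper126.Sus.Book.exists_book J
    ((Order.le_succ _).trans hJ.ge)
  have hU : ∀ r : Iter (ST (C := C) g hC), r ∈ Unif C (ltT g hC) Prod.fst :=
    fun r => Pool.Agent.Helper126.Sus.Book.unif hcof hg r
  have hsub : ∀ {f : K1 → K1 → ℕ → Set (Iter (ST (C := C) g hC))}
      {φ : Set (Iter (ST (C := C) g hC))} {r : Iter (ST (C := C) g hC)},
      r ∈ fimp (fand (IsColouring C f) φ) (Uniformizable C (ltT g hC) Prod.fst f) := by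
    intro f φ r
    exact mem_fimp.2 fun q hq h => mem_fimp.1 (hU r f) q hq h.1
  obtain ⟨b, _⟩ := Pool.Agent.Helper126.Sus.Om.exists_min
  have hne : Nonempty (Cd C g) := inferInstance
  refine ⟨Cd C g, inferInstance, ST g hC, C, Node, ltT g hC, Prod.fst,
    ⟨⟨hne.some, ((b, 0) : Node)⟩⟩, ccc_cd hC, ccc_iter, ⟨?_, ?_, ?_⟩, fun r => ⟨aronszajnT r, hU r,
      fun f => hsub, fun f => hsub⟩⟩
  · exact fun α hα ξ hξ => hC.lt hα hξ
  · intro α hα η hη
    obtain ⟨σ, h1, _, h2⟩ := Pool.Agent.Helper126.Sus.Om.exists_succ η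
    obtain ⟨ξ, h3, h4⟩ := hC.cof hα (h2 α hα hη)
    exact ⟨ξ, h3, h1.trans_le h4⟩
  · exact fun α hα η hη => hC.fin hα hη

end Pool.Agent.Results.MP_0201f6_lc.SuslinUnif
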